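import Pool.Agent.X275.GB.K73
import Pool.Agent.X31.R3
import Pool.Agent.X31.S4

/-!
# Goldbach partitions with `√m < p ≤ m / 2`, near real powers of integers with missing digits

`f(t) = ∑ a_x t ^ x` is a finite real combination of real powers of `t` whose largest exponent `c > 0` is NOT an integer
(for instance `t ^ c` or `√t`), and `n` runs through the integers with `M` digits in base `b` whose digit at `b ^ j` is in
`𝒟 j`, where the sets `𝒟 j` of allowed digits are arbitrary with at least TWO elements (such sets can be as thin as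
`N ^ ε`). For almost all elements `n` of ARBITRARY dense subsets, ALL even numbers `m > 0` with
`|m - (k + θ f(n))| ≤ log ^ D N` have the property `Holds`; `k` and `θ` are arbitrary real numbers of suitable size.

Method: the windows formula for almost all members of the families of small additive energy
(`Pool.Agent.TH935.GF.fam_win`, starting files), and the bound for the real additive energy of real powers at integers with
missing digits (`Pool.Agent.X31.R1` - `R3`, in this run).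

`Holds ε A m` (module `Pool.Agent.X275.GB.K73`): there is a prime `p` with `√m < p ≤ m / 2` for which `m - p` is a prime
(the assertion of the problem for `2 n = m`), and in every window `(y₁, y₂] ⊆ (√m, m / 2]` with `y₂ - y₁ ≥ m / log ^ A m` there
are such primes, their number being `𝔖(m) (y₂ - y₁) / log ^ 2 m` up to a relative error of at most `ε`. Here `𝔖(m) = sing m` is the singular series.
Definitions from
`Pool.Agent.H560R3.GB` (starting files): `C₂`: the twin prime constant `∏_{p > 2} (1 - 1 / (p - 1) ^ 2)`; `sing m`: the singular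
series `2 C₂ ∏_{p ∣ m, p > 2} (p - 1) / (p - 2)`.
-/

set_option autoImplicit false

namespace Pool.Agent.Results.MP_73b532_nt.RealPowersMissingDigits

open Finset Pool.Agent.H560R3.GB Pool.Agent.X275.GB.K73

/-- the integers `0 ≤ n < b ^ M` whose digit at `b ^ j` in base `b` is in `𝒟 j`, for all `j < M` -/
def Digits (b : ℕ) (𝒟 : ℕ → Finset ℕ) (M : ℕ) : Finset ℕ :=
  (range (b ^ M)).filter (fun n => ∀ j < M, n / b ^ j % b ∈ 𝒟 j)

/-- the generalised polynomial with the exponents `x ∈ F` and the coefficients `a x` -/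
noncomputable def f (F : Finset ℝ) (a : ℝ → ℝ) (t : ℝ) : ℝ := ∑ x ∈ F, a x * t ^ x

/-- The sets `𝒟 j` of allowed digits have at least two elements; `|θ| ≤ log ^ D N` and `|θ| b ^ (M c) ≥ N / log ^ D N`; `S` is
a subset of the set of the integers with missing digits with at least `1 / log ^ D N` of its elements, and
`|k + θ f(n)| ≤ N` on `S`. -/
def Fam (b : ℕ) (F : Finset ℝ) (a : ℝ → ℝ) (c : ℝ) (D N M : ℕ) (𝒟 : ℕ → Finset ℕ) (θ k : ℝ) (S : Finset ℕ) : Prop :=
  (∀ j, 𝒟 j ⊆ range b ∧ 2 ≤ (𝒟 j).card) ∧ |θ| ≤ Real.log N ^ D ∧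
  (N : ℝ) / Real.log N ^ D ≤ |θ| * ((b : ℝ) ^ M) ^ c ∧
  S ⊆ Digits b 𝒟 M ∧ ((Digits b 𝒟 M).card : ℝ) / Real.log N ^ D ≤ S.card ∧ ∀ n ∈ S, |k + θ * f F a n| ≤ N

lemma dat_of {b : ℕ} {F : Finset ℝ} {a : ℝ → ℝ} {c : ℝ} {D N M : ℕ} {𝒟 : ℕ → Finset ℕ} {θ k : ℝ} {S : Finset ℕ}
    (H : Fam b F a c D N M 𝒟 θ k S) :
    Pool.Agent.X31.CT.Dat3 b c D N M 𝒟 θ k (fun n => Pool.Agent.X31.gp F a n) S :=
  ⟨H.1, H.2.1, H.2.2.1, H.2.2.2.1, H.2.2.2.2.1, H.2.2.2.2.2⟩

open Classical in
/-- Let `b ≥ 2`, let `F` be a finite set of real numbers whose maximum `c > 0` is not an integer, `a c ≠ 0`, and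
`f(t) = ∑_{x ∈ F} a x * t ^ x`. For all sufficiently large `N`, for ALL data with `Fam b F a c D N M 𝒟 θ k S`: all but at most
`|S| / log ^ U N` elements `n` of `S` are such that ALL even numbers `m > 0` with `|m - (k + θ f(n))| ≤ log ^ D N` satisfy
`Holds ε A m`. -/
theorem result (b : ℕ) (hb : 2 ≤ b) (F : Finset ℝ) (a : ℝ → ℝ) (c : ℝ) (hcF : c ∈ F) (hmax : ∀ x ∈ F, x ≤ c)
    (hac : a c ≠ 0) (hc : 0 < c) (hcn : ∀ n : ℕ, c ≠ n) (A D U : ℕ) (ε : ℝ) (hε : 0 < ε) :
    ∃ N₀ : ℕ, ∀ N : ℕ, N₀ ≤ N → ∀ (M : ℕ) (𝒟 : ℕ → Finset ℕ) (θ k : ℝ) (S : Finset ℕ), Fam b F a c D N M 𝒟 θ k S →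
      ((S.filter (fun n : ℕ => ¬ ∀ m : ℕ, 0 < m → Even m →
        |(m : ℝ) - (k + θ * f F a n)| ≤ Real.log N ^ D → Holds ε A m)).card : ℝ) ≤
        S.card / Real.log N ^ U := by
  obtain ⟨N₀, h0⟩ := (Pool.Agent.X31.Sch_rp hb F a c hcF hmax hac hc hcn).even D U _ (famP A ε hε)
  refine ⟨N₀, fun N hN M 𝒟 θ k S hdat => ?_⟩
  obtain ⟨E, hE1, hE2⟩ := h0 N hN S (fun n => k + θ * Pool.Agent.X31.gp F a n)
    ⟨M, 𝒟, θ, k, dat_of hdat, fun n => rfl⟩
  refine le_trans ?_ hE1
  apply Nat.cast_le.2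
  apply card_le_card
  intro n hn
  rw [mem_filter] at hn
  by_contra hcon
  exact hn.2 (fun m hm0 hm2 hm3 => hE2 n hn.1 hcon m hm0 hm2 hm3)

end Pool.Agent.Results.MP_73b532_nt.RealPowersMissingDigits
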